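import Mathlib

/-! Combinatorial part: a triangle-free 7-regular graph on 18 vertices is bipartite. -/

namespace Pool.Agent.Lib.MP_d6bcd1_co

open Finset

theorem pat (p0 p1 p2 p3 p4 : Prop) [Decidable p0] [Decidable p1] [Decidable p2] [Decidable p3]
    [Decidable p4] (a0 : p0 → ¬ p1) (a1 : p1 → ¬ p2) (a2 : p2 → ¬ p3) (a3 : p3 → ¬ p4)
    (a4 : p4 → ¬ p0) (s : ℕ)
    (hs : s = (if p0 then 1 else 0) + (if p1 then 1 else 0)
    + (if p2 then 1 else 0) + (if p3 then 1 else 0) + (if p4 then 1 else 0)) :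
    s ≤ 2 ∧ (s = 2 → (p4 ∧ p1) ∨ (p0 ∧ p2) ∨ (p1 ∧ p3) ∨ (p2 ∧ p4) ∨ (p3 ∧ p0)) ∧
      (s = 1 → (p0 ∨ p1 ∨ p2 ∨ p3 ∨ p4) ∧
      ((p0 → ¬ p1 ∧ ¬ p2 ∧ ¬ p3 ∧ ¬ p4) ∧
       (p1 → ¬ p2 ∧ ¬ p3 ∧ ¬ p4 ∧ ¬ p0) ∧
       (p2 → ¬ p3 ∧ ¬ p4 ∧ ¬ p0 ∧ ¬ p1) ∧
       (p3 → ¬ p4 ∧ ¬ p0 ∧ ¬ p1 ∧ ¬ p2) ∧
       (p4 → ¬ p0 ∧ ¬ p1 ∧ ¬ p2 ∧ ¬ p3))) := by
  subst hs
  by_cases h0 : p0 <;> by_cases h1 : p1 <;> by_cases h2 : p2 <;>
      by_cases h3 : p3 <;> by_cases h4 : p4 <;> simp_all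

theorem count5 (N0 N1 N2 N3 N4 : Finset (Fin 18))
    (k0 : N0.card = 7) (k1 : N1.card = 7) (k2 : N2.card = 7) (k3 : N3.card = 7)
    (k4 : N4.card = 7)
    (d01 : Disjoint N0 N1) (d12 : Disjoint N1 N2) (d23 : Disjoint N2 N3) (d34 : Disjoint N3 N4)
    (d40 : Disjoint N4 N0) :
    ∃ z, (∀ x, x ≠ z → (x ∈ N4 ∧ x ∈ N1) ∨ (x ∈ N0 ∧ x ∈ N2) ∨ (x ∈ N1 ∧ x ∈ N3) ∨
        (x ∈ N2 ∧ x ∈ N4) ∨ (x ∈ N3 ∧ x ∈ N0)) ∧
      (z ∈ N0 ∨ z ∈ N1 ∨ z ∈ N2 ∨ z ∈ N3 ∨ z ∈ N4) ∧
      ((z ∈ N0 → z ∉ N1 ∧ z ∉ N2 ∧ z ∉ N3 ∧ z ∉ N4) ∧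
       (z ∈ N1 → z ∉ N2 ∧ z ∉ N3 ∧ z ∉ N4 ∧ z ∉ N0) ∧
       (z ∈ N2 → z ∉ N3 ∧ z ∉ N4 ∧ z ∉ N0 ∧ z ∉ N1) ∧
       (z ∈ N3 → z ∉ N4 ∧ z ∉ N0 ∧ z ∉ N1 ∧ z ∉ N2) ∧
       (z ∈ N4 → z ∉ N0 ∧ z ∉ N1 ∧ z ∉ N2 ∧ z ∉ N3)) := by
  obtain ⟨t, htdef⟩ : ∃ t : Fin 18 → ℕ, ∀ x, t x = (if x ∈ N0 then 1 else 0)
    + (if x ∈ N1 then 1 else 0) + (if x ∈ N2 then 1 else 0) + (if x ∈ N3 then 1 else 0)
    + (if x ∈ N4 then 1 else 0) := ⟨_, fun x => rfl⟩
  have hs : ∑ x, t x = 35 := by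
    simp only [htdef, Finset.sum_add_distrib, Finset.sum_boole, Finset.filter_mem_eq_inter,
      Finset.univ_inter, k0, k1, k2, k3, k4]
    norm_num
  have hpat := fun x => pat (x ∈ N0) (x ∈ N1) (x ∈ N2) (x ∈ N3) (x ∈ N4)
    (fun h => Finset.disjoint_left.mp d01 h) (fun h => Finset.disjoint_left.mp d12 h)
    (fun h => Finset.disjoint_left.mp d23 h) (fun h => Finset.disjoint_left.mp d34 h)
    (fun h => Finset.disjoint_left.mp d40 h) (t x) (htdef x)
  have ht : ∀ x, t x ≤ 2 := fun x => (hpat x).1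
  have hz : ∃ z, t z ≤ 1 := by
    by_contra hcon
    push Not at hcon
    have : ∑ _x : Fin 18, 2 ≤ ∑ x, t x := Finset.sum_le_sum (fun x _ => hcon x)
    rw [hs] at this
    simp at this
  obtain ⟨z, hz⟩ := hz
  have hx2 : ∀ x, x ≠ z → t x = 2 := by
    intro x hx
    by_contra hne
    have hx1 : t x ≤ 1 := by
      have := ht x
      omega
    have : ∑ y, t y ≤ ∑ y, (if y = z ∨ y = x then 1 else 2) := by
      apply Finset.sum_le_sum
      intro y _
      by_cases hy : y = z ∨ y = x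
      · rw [if_pos hy]
        rcases hy with rfl | rfl
        · exact hz
        · exact hx1
      · rw [if_neg hy]; exact ht y
    have h2 : ∑ y : Fin 18, (if y = z ∨ y = x then 1 else 2) = 34 := by
      have h3 : ∀ y : Fin 18, (if y = z ∨ y = x then 1 else 2)
          + ((if y = z then 1 else 0) + (if y = x then 1 else 0)) = 2 := by
        intro y
        by_cases hy : y = z
        · subst hy
          simp [Ne.symm hx]
        · by_cases hy' : y = x
          · subst hy'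
            simp [hy]
          · simp [hy, hy']
      have h4 := Finset.sum_congr rfl (fun y (_ : y ∈ (Finset.univ : Finset (Fin 18))) => h3 y)
      rw [Finset.sum_add_distrib, Finset.sum_add_distrib] at h4
      simp only [Finset.sum_ite_eq', Finset.mem_univ, if_true, Finset.sum_const,
        Finset.card_univ, Fintype.card_fin, smul_eq_mul] at h4
      omega
    omega
  have hz1 : t z = 1 := by
    by_contra hne
    have hz0 : t z = 0 := by omega
    have : ∑ y, t y ≤ ∑ y, (if y = z then 0 else 2) := by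
      apply Finset.sum_le_sum
      intro y _
      by_cases hy : y = z
      · rw [if_pos hy, hy]; omega
      · rw [if_neg hy]; exact ht y
    have h2 : ∑ y : Fin 18, (if y = z then 0 else 2) = 34 := by
      have h3 : ∀ y : Fin 18, (if y = z then 0 else 2) + (if y = z then 2 else 0) = 2 := by
        intro y
        by_cases hy : y = z <;> simp [hy]
      have h4 := Finset.sum_congr rfl (fun y (_ : y ∈ (Finset.univ : Finset (Fin 18))) => h3 y)
      rw [Finset.sum_add_distrib] at h4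
      simp only [Finset.sum_ite_eq', Finset.mem_univ, if_true, Finset.sum_const,
        Finset.card_univ, Fintype.card_fin, smul_eq_mul] at h4
      omega
    omega
  exact ⟨z, fun x hx => (hpat x).2.1 (hx2 x hx), ((hpat z).2.2 hz1).1, ((hpat z).2.2 hz1).2⟩

section

variable (N : Fin 18 → Finset (Fin 18)) (hsym : ∀ x y, y ∈ N x → x ∈ N y)
  (hcard : ∀ x, (N x).card = 7) (htri : ∀ x y, y ∈ N x → Disjoint (N x) (N y))

include hcard htri

theorem irrefl' : ∀ x, x ∉ N x := by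
  intro x hx
  have h := htri x x hx
  rw [disjoint_self, Finset.bot_eq_empty] at h
  have := hcard x
  rw [h] at this
  simp at this

include hsym

omit hsym in
/-- `A i` has at least three elements. -/
theorem size_ge (a b c : Fin 18) (hab : b ∈ N a) (hbc : c ∈ N b) :
    3 ≤ (N a ∩ N c).card := by
  have h1 : Disjoint (N b) (N a ∪ N c) := by
    rw [Finset.disjoint_union_right]
    exact ⟨(htri a b hab).symm, htri b c hbc⟩
  have h2 : (N b ∪ (N a ∪ N c)).card ≤ 18 := by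
    simpa using Finset.card_le_univ (N b ∪ (N a ∪ N c))
  rw [Finset.card_union_of_disjoint h1] at h2
  have h3 := Finset.card_union_add_card_inter (N a) (N c)
  rw [hcard, hcard] at h3
  rw [hcard] at h2
  omega

omit hsym in
/-- `A (j-1)` and `A (j+1)` are disjoint subsets of `N (c j)`. -/
theorem size_le (a b c d e : Fin 18) (_hab : b ∈ N a) (_hbc : c ∈ N b) (_hcd : d ∈ N c)
    (_hde : e ∈ N d) (hea : a ∈ N e) (T : Finset (Fin 18)) (hT : T ⊆ N c)
    (hTa : Disjoint T (N a)) (hTe : Disjoint T (N e)) :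
    (N a ∩ N c).card + (N c ∩ N e).card + T.card ≤ 7 := by
  have h1 : Disjoint (N a ∩ N c) (N c ∩ N e) :=
    Finset.disjoint_of_subset_left Finset.inter_subset_left
      (Finset.disjoint_of_subset_right Finset.inter_subset_right (htri e a hea).symm)
  have h2 : Disjoint ((N a ∩ N c) ∪ (N c ∩ N e)) T := by
    rw [Finset.disjoint_union_left]
    constructor
    · exact Finset.disjoint_of_subset_left Finset.inter_subset_left hTa.symm
    · exact Finset.disjoint_of_subset_left Finset.inter_subset_right hTe.symm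
  have h3 : ((N a ∩ N c) ∪ (N c ∩ N e)) ∪ T ⊆ N c := by
    intro x hx
    simp only [Finset.mem_union, Finset.mem_inter] at hx
    rcases hx with (hx | hx) | hx
    · exact hx.2
    · exact hx.1
    · exact hT hx
  have h4 := Finset.card_le_card h3
  rw [Finset.card_union_of_disjoint h2, Finset.card_union_of_disjoint h1, hcard] at h4
  exact h4

omit hsym in
/-- A vertex `p` of `A 2` adjacent to `z`: at most one vertex of `A 3` is adjacent to `z`. -/
theorem few (c0 c1 c2 c3 c4 z p : Fin 18)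
    (hcov : ∀ x, x ≠ z → x ∈ N c4 ∩ N c1 ∨ x ∈ N c0 ∩ N c2 ∨ x ∈ N c1 ∩ N c3 ∨
        x ∈ N c2 ∩ N c4 ∨ x ∈ N c3 ∩ N c0)
    (s1 : (N c0 ∩ N c2).card = 3) (s3 : (N c2 ∩ N c4).card = 4)
    (hp : p ∈ N c1 ∩ N c3) (hpz : p ∈ N z) :
    (N z ∩ (N c2 ∩ N c4)).card ≤ 1 := by
  rw [Finset.mem_inter] at hp
  have dz := htri z p hpz
  have d1 := htri c1 p hp.1
  have d3 := htri c3 p hp.2
  have hsub : N p ⊆ insert z ((N c0 ∩ N c2) ∪ ((N c2 ∩ N c4) \ (N z))) := by
    intro x hx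
    by_cases hxz : x = z
    · rw [hxz]; exact Finset.mem_insert_self _ _
    · rw [Finset.mem_insert, Finset.mem_union, Finset.mem_sdiff]
      right
      have nz : x ∉ N z := fun h => Finset.disjoint_left.mp dz h hx
      have n1 : x ∉ N c1 := fun h => Finset.disjoint_left.mp d1 h hx
      have n3 : x ∉ N c3 := fun h => Finset.disjoint_left.mp d3 h hx
      rcases hcov x hxz with h | h | h | h | h
      · exact absurd (Finset.mem_inter.mp h).2 n1
      · exact Or.inl h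
      · exact absurd (Finset.mem_inter.mp h).1 n1
      · exact Or.inr ⟨h, nz⟩
      · exact absurd (Finset.mem_inter.mp h).1 n3
  have h1 := Finset.card_le_card hsub
  have h2 := Finset.card_insert_le z ((N c0 ∩ N c2) ∪ ((N c2 ∩ N c4) \ (N z)))
  have h3 := Finset.card_union_le (N c0 ∩ N c2) ((N c2 ∩ N c4) \ (N z))
  have h4 := Finset.card_sdiff_add_card_inter (N c2 ∩ N c4) (N z)
  rw [Finset.inter_comm (N c2 ∩ N c4) (N z)] at h4
  rw [hcard] at h1
  omega

/-- No closed 5-walk, when the exceptional vertex is adjacent to `c0` only. -/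
theorem case5 (c0 c1 c2 c3 c4 : Fin 18)
    (h01 : c1 ∈ N c0) (h12 : c2 ∈ N c1) (h23 : c3 ∈ N c2) (h34 : c4 ∈ N c3) (h40 : c0 ∈ N c4)
    (z : Fin 18) (hz0 : z ∈ N c0) (hz1 : z ∉ N c1) (hz2 : z ∉ N c2) (hz3 : z ∉ N c3)
    (hz4 : z ∉ N c4)
    (hcov : ∀ x, x ≠ z → x ∈ N c4 ∩ N c1 ∨ x ∈ N c0 ∩ N c2 ∨ x ∈ N c1 ∩ N c3 ∨
        x ∈ N c2 ∩ N c4 ∨ x ∈ N c3 ∩ N c0) : False := by
  have hirr := irrefl' N hcard htri
  have g0 := size_ge N hcard htri c4 c0 c1 h40 h01
  have g1 := size_ge N hcard htri c0 c1 c2 h01 h12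
  have g2 := size_ge N hcard htri c1 c2 c3 h12 h23
  have g3 := size_ge N hcard htri c2 c3 c4 h23 h34
  have g4 := size_ge N hcard htri c3 c4 c0 h34 h40
  -- upper bounds
  have u0 := size_le N hcard htri c3 c4 c0 c1 c2 h34 h40 h01 h12 h23 {z}
    (by simpa using hz0) (by simpa using hz3) (by simpa using hz2)
  have u1 := size_le N hcard htri c4 c0 c1 c2 c3 h40 h01 h12 h23 h34 ∅
    (by simp) (by simp) (by simp)
  have u2 := size_le N hcard htri c0 c1 c2 c3 c4 h01 h12 h23 h34 h40 ∅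
    (by simp) (by simp) (by simp)
  have u3 := size_le N hcard htri c1 c2 c3 c4 c0 h12 h23 h34 h40 h01 ∅
    (by simp) (by simp) (by simp)
  have u4 := size_le N hcard htri c2 c3 c4 c0 c1 h23 h34 h40 h01 h12 ∅
    (by simp) (by simp) (by simp)
  rw [Finset.card_singleton] at u0
  rw [Finset.card_empty] at u1 u2 u3 u4
  have htot : 18 ≤ 1 + ((N c4 ∩ N c1).card + ((N c0 ∩ N c2).card + ((N c1 ∩ N c3).card +
      ((N c2 ∩ N c4).card + (N c3 ∩ N c0).card)))) := by
    have h1 : (Finset.univ : Finset (Fin 18)) ⊆ {z} ∪ ((N c4 ∩ N c1) ∪ ((N c0 ∩ N c2) ∪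
        ((N c1 ∩ N c3) ∪ ((N c2 ∩ N c4) ∪ (N c3 ∩ N c0))))) := by
      intro x _
      by_cases hx : x = z
      · simp [hx]
      · rw [Finset.mem_union]
        right
        simp only [Finset.mem_union]
        exact hcov x hx
    have h2 := Finset.card_le_card h1
    rw [Finset.card_univ, Fintype.card_fin] at h2
    have k1 := Finset.card_union_le {z} ((N c4 ∩ N c1) ∪ ((N c0 ∩ N c2) ∪
        ((N c1 ∩ N c3) ∪ ((N c2 ∩ N c4) ∪ (N c3 ∩ N c0)))))
    have k2 := Finset.card_union_le (N c4 ∩ N c1) ((N c0 ∩ N c2) ∪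
        ((N c1 ∩ N c3) ∪ ((N c2 ∩ N c4) ∪ (N c3 ∩ N c0))))
    have k3 := Finset.card_union_le (N c0 ∩ N c2)
        ((N c1 ∩ N c3) ∪ ((N c2 ∩ N c4) ∪ (N c3 ∩ N c0)))
    have k4 := Finset.card_union_le (N c1 ∩ N c3) ((N c2 ∩ N c4) ∪ (N c3 ∩ N c0))
    have k5 := Finset.card_union_le (N c2 ∩ N c4) (N c3 ∩ N c0)
    rw [Finset.card_singleton] at k1
    omega
  have i1 : N c3 ∩ N c0 = N c0 ∩ N c3 := Finset.inter_comm _ _
  have i2 : N c4 ∩ N c1 = N c1 ∩ N c4 := Finset.inter_comm _ _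
  have s0 : (N c4 ∩ N c1).card = 3 := by omega
  have s1 : (N c0 ∩ N c2).card = 3 := by omega
  have s2 : (N c1 ∩ N c3).card = 4 := by omega
  have s3 : (N c2 ∩ N c4).card = 4 := by omega
  have s4 : (N c3 ∩ N c0).card = 3 := by omega
  -- neighbours of z
  have hNz : N z ⊆ (N c4 ∩ N c1) ∪ ((N z ∩ (N c1 ∩ N c3)) ∪ (N z ∩ (N c2 ∩ N c4))) := by
    intro x hx
    have hxz : x ≠ z := by
      rintro rfl
      exact hirr _ hx
    have d0 := htri c0 z hz0
    have n0 : x ∉ N c0 := fun h => Finset.disjoint_left.mp d0 h hx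
    simp only [Finset.mem_union, Finset.mem_inter]
    rcases hcov x hxz with h | h | h | h | h
    · exact Or.inl (Finset.mem_inter.mp h)
    · exact absurd (Finset.mem_inter.mp h).1 n0
    · exact Or.inr (Or.inl ⟨hx, Finset.mem_inter.mp h⟩)
    · exact Or.inr (Or.inr ⟨hx, Finset.mem_inter.mp h⟩)
    · exact absurd (Finset.mem_inter.mp h).2 n0
  have hcz := Finset.card_le_card hNz
  have q1 := Finset.card_union_le (N c4 ∩ N c1) ((N z ∩ (N c1 ∩ N c3)) ∪ (N z ∩ (N c2 ∩ N c4)))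
  have q2 := Finset.card_union_le (N z ∩ (N c1 ∩ N c3)) (N z ∩ (N c2 ∩ N c4))
  rw [hcard] at hcz
  -- c2 and c3 are not adjacent to z
  have hc2z : c2 ∉ N z := fun h => hz2 (hsym _ _ h)
  have hc3z : c3 ∉ N z := fun h => hz3 (hsym _ _ h)
  have r2 : (N z ∩ (N c1 ∩ N c3)).card < (N c1 ∩ N c3).card := by
    apply Finset.card_lt_card
    refine ⟨Finset.inter_subset_right, fun h => hc2z ?_⟩
    exact (Finset.mem_inter.mp (h (Finset.mem_inter.mpr ⟨h12, hsym _ _ h23⟩))).1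
  have r3 : (N z ∩ (N c2 ∩ N c4)).card < (N c2 ∩ N c4).card := by
    apply Finset.card_lt_card
    refine ⟨Finset.inter_subset_right, fun h => hc3z ?_⟩
    exact (Finset.mem_inter.mp (h (Finset.mem_inter.mpr ⟨h23, hsym _ _ h34⟩))).1
  have n2 : (N z ∩ (N c1 ∩ N c3)).Nonempty := by
    rw [← Finset.card_pos]; omega
  have n3 : (N z ∩ (N c2 ∩ N c4)).Nonempty := by
    rw [← Finset.card_pos]; omega
  obtain ⟨p, hp⟩ := n2
  obtain ⟨q, hq⟩ := n3
  rw [Finset.mem_inter] at hp hq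
  have f1 := few N hcard htri c0 c1 c2 c3 c4 z p hcov s1 s3 hp.2 hp.1
  have f2 := few N hcard htri c0 c4 c3 c2 c1 z q
    (by
      intro x hx
      rcases hcov x hx with h | h | h | h | h <;> rw [Finset.inter_comm] at h <;> tauto)
    (by rw [Finset.inter_comm]; exact s4) (by rw [Finset.inter_comm]; exact s2)
    (by rw [Finset.inter_comm]; exact hq.2) hq.1
  rw [Finset.inter_comm (N c3) (N c1)] at f2
  omega

omit hsym hcard htri in
theorem rot5 {a b c d e : Prop} (h : a ∨ b ∨ c ∨ d ∨ e) : b ∨ c ∨ d ∨ e ∨ a := by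
  rcases h with h | h | h | h | h
  · exact Or.inr (Or.inr (Or.inr (Or.inr h)))
  · exact Or.inl h
  · exact Or.inr (Or.inl h)
  · exact Or.inr (Or.inr (Or.inl h))
  · exact Or.inr (Or.inr (Or.inr (Or.inl h)))

/-- No closed 5-walk. -/
theorem no5 (c0 c1 c2 c3 c4 : Fin 18)
    (h01 : c1 ∈ N c0) (h12 : c2 ∈ N c1) (h23 : c3 ∈ N c2) (h34 : c4 ∈ N c3) (h40 : c0 ∈ N c4) :
    False := by
  obtain ⟨z, hcov, hor, e0, e1, e2, e3, e4⟩ := count5 (N c0) (N c1) (N c2) (N c3) (N c4)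
    (hcard _) (hcard _) (hcard _) (hcard _) (hcard _) (htri _ _ h01) (htri _ _ h12)
    (htri _ _ h23) (htri _ _ h34) (htri _ _ h40)
  rcases hor with h | h | h | h | h
  · obtain ⟨m1, m2, m3, m4⟩ := e0 h
    refine case5 N hsym hcard htri c0 c1 c2 c3 c4 h01 h12 h23 h34 h40 z h m1 m2 m3 m4 ?_
    intro x hx
    simp only [Finset.mem_inter]
    exact hcov x hx
  · obtain ⟨m1, m2, m3, m4⟩ := e1 h
    refine case5 N hsym hcard htri c1 c2 c3 c4 c0 h12 h23 h34 h40 h01 z h m1 m2 m3 m4 ?_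
    intro x hx
    simp only [Finset.mem_inter]
    exact rot5 (hcov x hx)
  · obtain ⟨m1, m2, m3, m4⟩ := e2 h
    refine case5 N hsym hcard htri c2 c3 c4 c0 c1 h23 h34 h40 h01 h12 z h m1 m2 m3 m4 ?_
    intro x hx
    simp only [Finset.mem_inter]
    exact rot5 (rot5 (hcov x hx))
  · obtain ⟨m1, m2, m3, m4⟩ := e3 h
    refine case5 N hsym hcard htri c3 c4 c0 c1 c2 h34 h40 h01 h12 h23 z h m1 m2 m3 m4 ?_
    intro x hx
    simp only [Finset.mem_inter]
    exact rot5 (rot5 (rot5 (hcov x hx)))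
  · obtain ⟨m1, m2, m3, m4⟩ := e4 h
    refine case5 N hsym hcard htri c4 c0 c1 c2 c3 h40 h01 h12 h23 h34 z h m1 m2 m3 m4 ?_
    intro x hx
    simp only [Finset.mem_inter]
    exact rot5 (rot5 (rot5 (rot5 (hcov x hx))))

/-- A triangle-free 7-regular graph on 18 vertices is bipartite. -/
theorem bipartite : ∃ B : Finset (Fin 18), ∀ x y, y ∈ N x → (x ∈ B ↔ y ∉ B) := by
  have hirr := irrefl' N hcard htri
  have h5 := no5 N hsym hcard htri
  -- base vertex 0
  set A : Finset (Fin 18) := N 0 with hA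
  set B : Finset (Fin 18) := Finset.univ.filter (fun x => ∃ a ∈ A, x ∈ N a) with hB
  have memB : ∀ x, x ∈ B ↔ ∃ a ∈ A, x ∈ N a := by
    intro x; rw [hB]; simp
  have hAB : Disjoint A B := by
    rw [Finset.disjoint_left]
    intro x hxA hxB
    obtain ⟨a, ha, hxa⟩ := (memB x).mp hxB
    exact Finset.disjoint_left.mp (htri 0 a ha) hxA hxa
  have hBcard : 7 ≤ B.card := by
    obtain ⟨a, ha⟩ : A.Nonempty := by
      rw [← Finset.card_pos, hA, hcard]; norm_num
    have : N a ⊆ B := fun x hx => (memB x).mpr ⟨a, ha, hx⟩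
    have h1 := Finset.card_le_card this
    rw [hcard] at h1
    exact h1
  refine ⟨B, ?_⟩
  -- B is independent
  have indB : ∀ x y, x ∈ B → y ∈ B → y ∉ N x := by
    intro x y hx hy hxy
    obtain ⟨a, ha, hxa⟩ := (memB x).mp hx
    obtain ⟨b, hb, hyb⟩ := (memB y).mp hy
    exact h5 0 a x y b ha hxa hxy (hsym _ _ hyb) (hsym _ _ hb)
  -- the complement is independent
  have indC : ∀ x y, x ∉ B → y ∉ B → y ∉ N x := by
    intro x y hx hy hxy
    have nA : ∀ w v, w ∉ B → v ∈ N w → v ∉ A := by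
      intro w v hw hv hvA
      exact hw ((memB w).mpr ⟨v, hvA, hsym _ _ hv⟩)
    have d := htri x y hxy
    have hsub : N x ∪ N y ⊆ Finset.univ \ A := by
      intro v hv
      rw [Finset.mem_sdiff]
      refine ⟨Finset.mem_univ _, ?_⟩
      rw [Finset.mem_union] at hv
      rcases hv with hv | hv
      · exact nA x v hx hv
      · exact nA y v hy hv
    have h1 := Finset.card_le_card hsub
    rw [Finset.card_union_of_disjoint d, hcard, hcard] at h1
    have h2 : (Finset.univ \ A).card = 18 - 7 := by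
      rw [Finset.card_sdiff_of_subset (Finset.subset_univ _), Finset.card_univ, Fintype.card_fin,
        hA, hcard]
    omega
  intro x y hxy
  constructor
  · intro hx hy
    exact indB x y hx hy hxy
  · intro hy
    by_contra hx
    exact indC x y hx hy hxy

end

end Pool.Agent.Lib.MP_d6bcd1_co
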