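import Mathlib

/-! Spectral helper lemmas: sums of reciprocals of the roots of the characteristic polynomial
of a real symmetric matrix. -/

namespace Pool.Agent.Lib.MP_d6bcd1_co

open Matrix Finset

variable {n : Type*} [Fintype n] [DecidableEq n]

theorem trace_of_eig {A : Matrix n n ℝ} (hA : A.IsHermitian) (P : Matrix n n ℝ) (f : n → ℝ)
    (h : ∀ i, P *ᵥ (hA.eigenvectorBasis i).ofLp = f i • (hA.eigenvectorBasis i).ofLp) :
    P.trace = ∑ i, f i := by
  set U : Matrix n n ℝ := (hA.eigenvectorUnitary : Matrix n n ℝ) with hU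
  have hcol : ∀ i j, U i j = (hA.eigenvectorBasis j).ofLp i := by
    intro i j
    rw [hU, IsHermitian.eigenvectorUnitary_apply]
  have h1 : P * U = U * diagonal f := by
    ext i j
    have h2 := congrFun (h j) i
    rw [mul_diagonal, mul_apply]
    simp only [mulVec, dotProduct, Pi.smul_apply, smul_eq_mul] at h2
    simp only [hcol]
    rw [h2, mul_comm]
  have hUU : star U * U = 1 := by
    rw [hU]; exact Unitary.coe_star_mul_self _
  have hUU' : U * star U = 1 := by
    rw [hU]; exact Unitary.coe_mul_star_self _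
  calc P.trace = (P * (U * star U)).trace := by rw [hUU', mul_one]
    _ = ((U * diagonal f) * star U).trace := by rw [← mul_assoc, h1]
    _ = (diagonal f).trace := by rw [trace_mul_comm, ← mul_assoc, hUU, one_mul]
    _ = ∑ i, f i := by rw [trace_diagonal]

theorem roots_eq {A : Matrix n n ℝ} (hA : A.IsHermitian) :
    A.charpoly.roots = Multiset.map hA.eigenvalues Finset.univ.val := by
  rw [hA.roots_charpoly_eq_eigenvalues]
  rfl

theorem sum_inv_roots {A : Matrix n n ℝ} (hA : A.IsHermitian) :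
    ((A.charpoly.roots.erase 0).map (fun x => x⁻¹)).sum = ∑ i, (hA.eigenvalues i)⁻¹ := by
  have h1 : ((A.charpoly.roots.erase 0).map (fun x => x⁻¹)).sum
      = (A.charpoly.roots.map (fun x => x⁻¹)).sum := by
    by_cases h0 : (0 : ℝ) ∈ A.charpoly.roots
    · conv_rhs => rw [← Multiset.cons_erase h0]
      simp
    · rw [Multiset.erase_of_notMem h0]
  rw [h1, roots_eq hA, Multiset.map_map]
  rfl

theorem zero_notMem_erase_iff {A : Matrix n n ℝ} (hA : A.IsHermitian) :
    (0 : ℝ) ∉ A.charpoly.roots.erase 0 ↔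
      ∀ i j, hA.eigenvalues i = 0 → hA.eigenvalues j = 0 → i = j := by
  rw [← Multiset.count_eq_zero, Multiset.count_erase_self, roots_eq hA, Multiset.count_map]
  have : (Multiset.filter (fun a => 0 = hA.eigenvalues a) Finset.univ.val)
      = (Finset.univ.filter (fun a => 0 = hA.eigenvalues a)).val := rfl
  rw [this, Finset.card_val, Nat.sub_eq_zero_iff_le, Finset.card_le_one]
  constructor
  · intro h i j hi hj
    exact h i (by simp [hi]) j (by simp [hj])
  · intro h a ha b hb
    simp only [mem_filter, mem_univ, true_and] at ha hb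
    exact h a b ha.symm hb.symm

/-- An eigenvector equation gives an index in the list of eigenvalues. -/
theorem exists_eigenvalue {A : Matrix n n ℝ} (hA : A.IsHermitian) {t : ℝ} {v : n → ℝ}
    (hv : v ≠ 0) (h : A *ᵥ v = t • v) : ∃ i, hA.eigenvalues i = t := by
  have hs : t ∈ spectrum ℝ A := by
    rw [spectrum.mem_iff]
    intro hu
    apply hv
    obtain ⟨B, hB⟩ := hu.exists_left_inv
    have h1 : (algebraMap ℝ (Matrix n n ℝ) t - A) *ᵥ v = 0 := by
      rw [sub_mulVec, h, Algebra.algebraMap_eq_smul_one, smul_mulVec, one_mulVec, sub_self]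
    calc v = (1 : Matrix n n ℝ) *ᵥ v := (one_mulVec v).symm
      _ = B *ᵥ ((algebraMap ℝ (Matrix n n ℝ) t - A) *ᵥ v) := by rw [mulVec_mulVec, hB]
      _ = 0 := by rw [h1, mulVec_zero]
  rw [hA.spectrum_real_eq_range_eigenvalues] at hs
  exact hs

/-- Trace of a pseudo-inverse. -/
theorem of_pinv {A P E : Matrix n n ℝ} (hA : A.IsHermitian)
    (_hAP : A * P = 1 - E) (hPA : P * A = 1 - E) (hPE : P * E = 0) (hEA : E * A = 0)
    (hE : E.trace = 1) :
    (∑ i, (hA.eigenvalues i)⁻¹ = P.trace) ∧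
      (∀ i j, hA.eigenvalues i = 0 → hA.eigenvalues j = 0 → i = j) := by
  have hu : ∀ i, A *ᵥ (hA.eigenvectorBasis i).ofLp
      = hA.eigenvalues i • (hA.eigenvectorBasis i).ofLp := hA.mulVec_eigenvectorBasis
  have key0 : ∀ i, hA.eigenvalues i = 0 →
      E *ᵥ (hA.eigenvectorBasis i).ofLp = (hA.eigenvectorBasis i).ofLp := by
    intro i hi
    have h1 : (P * A) *ᵥ (hA.eigenvectorBasis i).ofLp = 0 := by
      rw [← mulVec_mulVec, hu, hi, zero_smul, mulVec_zero]
    rw [hPA, sub_mulVec, one_mulVec, sub_eq_zero] at h1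
    exact h1.symm
  have key1 : ∀ i, hA.eigenvalues i ≠ 0 →
      E *ᵥ (hA.eigenvectorBasis i).ofLp = 0 := by
    intro i hi
    have h1 : (E * A) *ᵥ (hA.eigenvectorBasis i).ofLp = 0 := by
      rw [hEA, zero_mulVec]
    rw [← mulVec_mulVec, hu, mulVec_smul] at h1
    exact (smul_eq_zero.mp h1).resolve_left hi
  constructor
  · symm
    apply trace_of_eig hA
    intro i
    by_cases hi : hA.eigenvalues i = 0
    · rw [hi, _root_.inv_zero, zero_smul]
      have h1 : (P * E) *ᵥ (hA.eigenvectorBasis i).ofLp = 0 := by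
        rw [hPE, zero_mulVec]
      rw [← mulVec_mulVec, key0 i hi] at h1
      exact h1
    · have h1 : (P * A) *ᵥ (hA.eigenvectorBasis i).ofLp = (hA.eigenvectorBasis i).ofLp := by
        rw [hPA, sub_mulVec, one_mulVec, key1 i hi, sub_zero]
      rw [← mulVec_mulVec, hu, mulVec_smul] at h1
      rw [eq_inv_smul_iff₀ hi]
      exact h1
  · have h1 : E.trace = ∑ i, (if hA.eigenvalues i = 0 then (1 : ℝ) else 0) := by
      apply trace_of_eig hA
      intro i
      by_cases hi : hA.eigenvalues i = 0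
      · rw [if_pos hi, one_smul, key0 i hi]
      · rw [if_neg hi, zero_smul, key1 i hi]
    rw [hE, Finset.sum_boole] at h1
    have h2 : (Finset.univ.filter (fun i => hA.eigenvalues i = 0)).card = 1 := by
      exact_mod_cast h1.symm
    intro i j hi hj
    exact Finset.card_le_one.mp h2.le i (by simp [hi]) j (by simp [hj])

/-- The lower bound in the bipartite case: a 7-regular graph on 18 vertices with adjacency
matrix `X`, traces `tr X = 0`, `tr X^2 = 126`, `tr X^3 = 0` and eigenvalue `-7`. -/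
theorem lower_bound {C X : Matrix n n ℝ} (hC : C.IsHermitian)
    (hn : Fintype.card n = 18)
    (hX : C = (1 / 2 : ℝ) • ((7 : ℝ) • (1 : Matrix n n ℝ) - X))
    (t1 : X.trace = 0) (t2 : (X ^ 2).trace = 126) (t3 : (X ^ 3).trace = 0)
    (hpos : ∀ i, 0 ≤ hC.eigenvalues i)
    (huniq : ∀ i j, hC.eigenvalues i = 0 → hC.eigenvalues j = 0 → i = j)
    (h0 : ∃ i, hC.eigenvalues i = 0) (h7 : ∃ i, hC.eigenvalues i = 7) :
    1 / 7 + 224 / 47.25 ≤ ∑ i, (hC.eigenvalues i)⁻¹ := by
  obtain ⟨i0, hi0⟩ := h0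
  obtain ⟨i1, hi1⟩ := h7
  have hXC : X = (7 : ℝ) • (1 : Matrix n n ℝ) - (2 : ℝ) • C := by
    rw [hX, smul_smul]; norm_num
  have hu : ∀ i, X *ᵥ (hC.eigenvectorBasis i).ofLp
      = (7 - 2 * hC.eigenvalues i) • (hC.eigenvectorBasis i).ofLp := by
    intro i
    rw [hXC, sub_mulVec, smul_mulVec, one_mulVec, smul_mulVec, hC.mulVec_eigenvectorBasis,
      smul_smul, sub_smul]
  have s1 : ∑ i, (7 - 2 * hC.eigenvalues i) = 0 := by
    rw [← t1]; exact (trace_of_eig hC X _ hu).symm
  have s2 : ∑ i, (7 - 2 * hC.eigenvalues i) ^ 2 = 126 := by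
    rw [← t2]
    refine (trace_of_eig hC (X ^ 2) _ ?_).symm
    intro i
    rw [pow_two, ← mulVec_mulVec, hu, mulVec_smul, hu, smul_smul, ← pow_two]
  have s3 : ∑ i, (7 - 2 * hC.eigenvalues i) ^ 3 = 0 := by
    rw [← t3]
    refine (trace_of_eig hC (X ^ 3) _ ?_).symm
    intro i
    rw [pow_succ, pow_two, ← mulVec_mulVec, ← mulVec_mulVec, hu, mulVec_smul, hu, smul_smul,
      mulVec_smul, hu, smul_smul]
    congr 1
    ring
  have s0 : ∑ _i : n, (1 : ℝ) = 18 := by
    rw [Finset.sum_const, Finset.card_univ, hn]; norm_num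
  have hterm : ∀ i, (2 * (7 + (7 - 2 * hC.eigenvalues i)) * (45.5 + (7 - 2 * hC.eigenvalues i) ^ 2)
        / 2232.5625) + (if i = i1 then (1 / 7 : ℝ) else 0)
        - (if i = i0 then (2646 / 2232.5625 : ℝ) else 0) ≤ (hC.eigenvalues i)⁻¹ := by
    intro i
    by_cases hii : i = i0
    · subst hii
      have hne : i ≠ i1 := by
        intro h
        rw [← h, hi0] at hi1
        norm_num at hi1
      rw [if_pos rfl, if_neg hne, hi0]
      norm_num
    · have hl : 0 < hC.eigenvalues i :=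
        lt_of_le_of_ne (hpos i) (fun h => hii (huniq i i0 h.symm hi0))
      rw [if_neg hii]
      by_cases hi : i = i1
      · subst hi
        rw [if_pos rfl, hi1]
        norm_num
      · rw [if_neg hi, add_zero, sub_zero, inv_eq_one_div, le_div_iff₀ hl]
        set l := hC.eigenvalues i with hldef
        have : 0 ≤ ((7 - 2 * l) ^ 2 - 7 / 4) ^ 2 := sq_nonneg _
        have h2 : 2 * (7 + (7 - 2 * l)) * (45.5 + (7 - 2 * l) ^ 2) / 2232.5625 * l
            = 1 - ((7 - 2 * l) ^ 2 - 7 / 4) ^ 2 / 2232.5625 := by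
          norm_num
          ring
        rw [h2]
        have h3 : 0 ≤ ((7 - 2 * l) ^ 2 - 7 / 4) ^ 2 / (2232.5625 : ℝ) := by positivity
        linarith
  have hsum := Finset.sum_le_sum (fun i (_ : i ∈ Finset.univ) => hterm i)
  rw [Finset.sum_sub_distrib, Finset.sum_add_distrib, Finset.sum_ite_eq' Finset.univ i1,
    Finset.sum_ite_eq' Finset.univ i0, if_pos (Finset.mem_univ _), if_pos (Finset.mem_univ _)]
    at hsum
  have hpoly : ∑ i, (2 * (7 + (7 - 2 * hC.eigenvalues i)) *
      (45.5 + (7 - 2 * hC.eigenvalues i) ^ 2) / 2232.5625)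
      = (2 / 2232.5625) * (7 * 45.5 * ∑ _i : n, (1 : ℝ)
        + 45.5 * ∑ i, (7 - 2 * hC.eigenvalues i)
        + 7 * ∑ i, (7 - 2 * hC.eigenvalues i) ^ 2 + ∑ i, (7 - 2 * hC.eigenvalues i) ^ 3) := by
    simp only [Finset.mul_sum, ← Finset.sum_add_distrib]
    apply Finset.sum_congr rfl
    intro i _
    ring
  rw [hpoly, s0, s1, s2, s3] at hsum
  norm_num at hsum ⊢
  linarith

end Pool.Agent.Lib.MP_d6bcd1_co
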