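import Mathlib
import Pool.Agent.Lib.MP_d6bcd1_co.Spec
import Pool.Agent.Lib.MP_d6bcd1_co.Comb

/-! From a binary design with `(v,b,k,r) = (18,63,2,7)` and `Γ₂ ≤ 126`, `Γ₃ ≤ 0` to the lower
bound for the sum of reciprocal eigenvalues. -/

namespace Pool.Agent.Lib.MP_d6bcd1_co

open Matrix Finset

/-- The adjacency matrix of the concurrence graph. -/
def Xz (D : Matrix (Fin 18) (Fin 63) ℕ) : Matrix (Fin 18) (Fin 18) ℤ :=
  D.map (fun x : ℕ => (x : ℤ)) * (D.map (fun x : ℕ => (x : ℤ))).transpose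
        - (7 : ℤ) • (1 : Matrix (Fin 18) (Fin 18) ℤ)

theorem Xz_apply (D : Matrix (Fin 18) (Fin 63) ℕ) (i j : Fin 18) :
    Xz D i j = (∑ b, (D i b : ℤ) * (D j b : ℤ)) - (if i = j then 7 else 0) := by
  unfold Xz
  rw [Matrix.sub_apply, mul_apply, Matrix.smul_apply, one_apply]
  simp only [map_apply, transpose_apply, smul_eq_mul]
  by_cases h : i = j
  · rw [if_pos h, if_pos h]; norm_num
  · rw [if_neg h, if_neg h]; norm_num

variable {D : Matrix (Fin 18) (Fin 63) ℕ}

theorem Xz_symm (i j : Fin 18) : Xz D i j = Xz D j i := by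
  have h1 : ∑ b, (D i b : ℤ) * (D j b : ℤ) = ∑ b, (D j b : ℤ) * (D i b : ℤ) :=
    Finset.sum_congr rfl (fun b _ => mul_comm _ _)
  have h2 : (if i = j then (7 : ℤ) else 0) = (if j = i then 7 else 0) := by
    by_cases h : i = j
    · rw [if_pos h, if_pos h.symm]
    · rw [if_neg h, if_neg (Ne.symm h)]
  rw [Xz_apply, Xz_apply, h1, h2]

section

variable (hcol : ∀ j, ∑ i, D i j = 2) (hrow : ∀ i, ∑ j, D i j = 7) (hle : ∀ i j, D i j ≤ 1)

include hrow hle in
theorem Xz_diag (i : Fin 18) : Xz D i i = 0 := by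
  rw [Xz_apply, if_pos rfl]
  have h1 : ∀ b, (D i b : ℤ) * (D i b : ℤ) = (D i b : ℤ) := by
    intro b
    have := hle i b
    interval_cases h : D i b <;> simp
  simp only [h1]
  have h2 := hrow i
  have h3 : (∑ b, (D i b : ℤ)) = 7 := by exact_mod_cast h2
  rw [h3]; norm_num

include hrow hle in
theorem Xz_nonneg (i j : Fin 18) : 0 ≤ Xz D i j := by
  by_cases h : i = j
  · subst h
    rw [Xz_diag hrow hle]
  · rw [Xz_apply, if_neg h, sub_zero]
    apply Finset.sum_nonneg
    intro b _
    positivity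

include hcol hrow in
theorem Xz_row (i : Fin 18) : ∑ j, Xz D i j = 7 := by
  simp only [Xz_apply]
  rw [Finset.sum_sub_distrib, Finset.sum_comm]
  have h1 : ∀ b, ∑ j, (D i b : ℤ) * (D j b : ℤ) = 2 * (D i b : ℤ) := by
    intro b
    rw [← Finset.mul_sum]
    have h2 : (∑ j, (D j b : ℤ)) = 2 := by exact_mod_cast hcol b
    rw [h2]; ring
  simp only [h1]
  rw [← Finset.mul_sum]
  have h3 : (∑ b, (D i b : ℤ)) = 7 := by exact_mod_cast hrow i
  rw [h3]
  simp

theorem trace_sq (X : Matrix (Fin 18) (Fin 18) ℤ) :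
    (X ^ 2).trace = ∑ i, ∑ j, X i j * X j i := by
  rw [pow_two, Matrix.trace]
  simp only [diag_apply, mul_apply]

theorem trace_cube (X : Matrix (Fin 18) (Fin 18) ℤ) :
    (X ^ 3).trace = ∑ i, ∑ j, (∑ k, X i k * X k j) * X j i := by
  rw [pow_succ, pow_two, Matrix.trace]
  simp only [diag_apply, mul_apply]

include hcol hrow hle in
theorem Xz_01 (h2 : (Xz D ^ 2).trace ≤ 126) (i j : Fin 18) : Xz D i j = 0 ∨ Xz D i j = 1 := by
  have hs : ∑ i, ∑ j, Xz D i j = 126 := by
    simp only [Xz_row hcol hrow]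
    simp
  rw [trace_sq] at h2
  have h3 : ∑ i, ∑ j, (Xz D i j * Xz D j i - Xz D i j) ≤ 0 := by
    simp only [Finset.sum_sub_distrib]
    rw [hs]
    linarith
  have hnn : ∀ i j, 0 ≤ Xz D i j * Xz D j i - Xz D i j := by
    intro i j
    rw [Xz_symm j i]
    have h0 := Xz_nonneg hrow hle i j
    rcases eq_or_lt_of_le h0 with h | h
    · rw [← h]; norm_num
    · nlinarith
  have h4 : ∀ i ∈ (Finset.univ : Finset (Fin 18)),
      ∑ j, (Xz D i j * Xz D j i - Xz D i j) = 0 := by
    apply (Finset.sum_eq_zero_iff_of_nonneg (fun i _ => Finset.sum_nonneg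
      (fun j _ => hnn i j))).mp
    apply le_antisymm h3
    exact Finset.sum_nonneg (fun i _ => Finset.sum_nonneg (fun j _ => hnn i j))
  have h5 := (Finset.sum_eq_zero_iff_of_nonneg (fun j _ => hnn i j)).mp
    (h4 i (Finset.mem_univ _)) j (Finset.mem_univ _)
  rw [Xz_symm j i] at h5
  have h6 : Xz D i j * (Xz D i j - 1) = 0 := by linarith
  rcases mul_eq_zero.mp h6 with h | h
  · exact Or.inl h
  · exact Or.inr (by linarith)

include hrow hle in
theorem Xz_tri (h3 : (Xz D ^ 3).trace ≤ 0) (i j k : Fin 18) :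
    Xz D i k * Xz D k j * Xz D j i = 0 := by
  rw [trace_cube] at h3
  have hnn : ∀ i j, 0 ≤ Xz D i j := fun i j => Xz_nonneg hrow hle i j
  have hn2 : ∀ i j, 0 ≤ (∑ k, Xz D i k * Xz D k j) * Xz D j i := by
    intro i j
    apply mul_nonneg _ (hnn _ _)
    exact Finset.sum_nonneg (fun k _ => mul_nonneg (hnn _ _) (hnn _ _))
  have h4 : ∀ i ∈ (Finset.univ : Finset (Fin 18)),
      ∑ j, (∑ k, Xz D i k * Xz D k j) * Xz D j i = 0 := by
    apply (Finset.sum_eq_zero_iff_of_nonneg (fun i _ => Finset.sum_nonneg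
      (fun j _ => hn2 i j))).mp
    apply le_antisymm h3
    exact Finset.sum_nonneg (fun i _ => Finset.sum_nonneg (fun j _ => hn2 i j))
  have h5 := (Finset.sum_eq_zero_iff_of_nonneg (fun j _ => hn2 i j)).mp
    (h4 i (Finset.mem_univ _)) j (Finset.mem_univ _)
  rw [Finset.sum_mul] at h5
  exact (Finset.sum_eq_zero_iff_of_nonneg (fun k _ => mul_nonneg (mul_nonneg (hnn _ _)
    (hnn _ _)) (hnn _ _))).mp h5 k (Finset.mem_univ _)

include hcol hrow hle in
/-- The sign vector of the bipartition. -/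
theorem exists_sign (h2 : (Xz D ^ 2).trace ≤ 126) (h3 : (Xz D ^ 3).trace ≤ 0) :
    ∃ s : Fin 18 → ℤ, (∀ i, s i ≠ 0) ∧ ∀ i, ∑ j, Xz D i j * s j = - 7 * s i := by
  have h01 := Xz_01 hcol hrow hle h2
  have htri := Xz_tri hrow hle h3
  set N : Fin 18 → Finset (Fin 18) := fun i => Finset.univ.filter (fun j => Xz D i j = 1)
    with hN
  have memN : ∀ i j, j ∈ N i ↔ Xz D i j = 1 := by
    intro i j; rw [hN]; simp
  have hval : ∀ i j, Xz D i j = if j ∈ N i then 1 else 0 := by
    intro i j
    by_cases h : j ∈ N i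
    · rw [if_pos h]; exact (memN i j).mp h
    · rw [if_neg h]
      rcases h01 i j with h' | h'
      · exact h'
      · exact absurd ((memN i j).mpr h') h
  have hcard : ∀ i, (N i).card = 7 := by
    intro i
    have h := Xz_row hcol hrow i
    simp only [hval] at h
    rw [Finset.sum_boole, Finset.filter_mem_eq_inter, Finset.univ_inter] at h
    exact_mod_cast h
  have hsym : ∀ x y, y ∈ N x → x ∈ N y := by
    intro x y h
    rw [memN] at h ⊢
    rw [Xz_symm]; exact h
  have hdis : ∀ x y, y ∈ N x → Disjoint (N x) (N y) := by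
    intro x y h
    rw [Finset.disjoint_left]
    intro z hz hz'
    rw [memN] at h hz hz'
    have := htri x y z
    rw [Xz_symm z y, hz, hz', Xz_symm y x, h] at this
    norm_num at this
  obtain ⟨B, hB⟩ := bipartite N hsym hcard hdis
  refine ⟨fun x => if x ∈ B then 1 else -1, ?_, ?_⟩
  · intro i
    by_cases h : i ∈ B
    · simp [h]
    · simp [h]
  · intro i
    have h1 : ∀ j, Xz D i j * (if j ∈ B then (1 : ℤ) else -1)
        = Xz D i j * (-(if i ∈ B then (1 : ℤ) else -1)) := by
      intro j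
      by_cases hj : j ∈ N i
      · have := hB i j hj
        by_cases hi : i ∈ B
        · have hjB : j ∉ B := this.mp hi
          rw [if_pos hi, if_neg hjB]
        · have hjB : j ∈ B := by
            by_contra hc
            exact hi (this.mpr hc)
          rw [if_neg hi, if_pos hjB]; ring
      · rw [hval i j, if_neg hj]; ring
    simp only [h1]
    rw [← Finset.sum_mul, Xz_row hcol hrow]
    ring

end

/-- The real information matrix. -/
noncomputable def Cr (D : Matrix (Fin 18) (Fin 63) ℕ) : Matrix (Fin 18) (Fin 18) ℝ :=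
  (7 : ℝ) • (1 : Matrix (Fin 18) (Fin 18) ℝ)
        - (1 / (2 : ℝ)) • (D.map (fun x : ℕ => (x : ℝ)) * (D.map (fun x : ℕ => (x : ℝ))).transpose)

noncomputable def Xr (D : Matrix (Fin 18) (Fin 63) ℕ) : Matrix (Fin 18) (Fin 18) ℝ :=
  (Int.castRingHom ℝ).mapMatrix (Xz D)

theorem Xr_apply (D : Matrix (Fin 18) (Fin 63) ℕ) (i j : Fin 18) :
    Xr D i j = ((Xz D i j : ℤ) : ℝ) := rfl

theorem Cr_eq (D : Matrix (Fin 18) (Fin 63) ℕ) :
    Cr D = (1 / 2 : ℝ) • ((7 : ℝ) • (1 : Matrix (Fin 18) (Fin 18) ℝ) - Xr D) := by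
  ext i j
  unfold Cr
  simp only [Matrix.sub_apply, Matrix.smul_apply, mul_apply, map_apply, transpose_apply, smul_eq_mul, Xr_apply,
    Xz_apply, one_apply]
  push_cast
  split_ifs <;> ring

theorem Cr_herm (D : Matrix (Fin 18) (Fin 63) ℕ) : (Cr D).IsHermitian := by
  rw [Cr_eq]
  ext i j
  simp only [conjTranspose_apply, Matrix.smul_apply, Matrix.sub_apply, one_apply, Xr_apply, star_trivial,
    smul_eq_mul]
  rw [Xz_symm j i]
  by_cases h : i = j
  · subst h; rfl
  · rw [if_neg h, if_neg (Ne.symm h)]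

theorem Xr_trace_pow (D : Matrix (Fin 18) (Fin 63) ℕ) (h : ℕ) :
    (Xr D ^ h).trace = (((Xz D ^ h).trace : ℤ) : ℝ) := by
  unfold Xr
  rw [← map_pow]
  simp [Matrix.trace]

/-- The main lower bound for a design. -/
theorem design_bound (hcol : ∀ j, ∑ i, D i j = 2) (hrow : ∀ i, ∑ j, D i j = 7)
    (hle : ∀ i j, D i j ≤ 1)
    (h2 : (Xz D ^ 2).trace ≤ 126) (h3 : (Xz D ^ 3).trace ≤ 0)
    (h0 : (0 : ℝ) ∉ (Cr D).charpoly.roots.erase 0) :
    1 / 7 + 224 / 47.25 ≤ (((Cr D).charpoly.roots.erase 0).map (fun x => x⁻¹)).sum := by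
  have hC := Cr_herm D
  rw [sum_inv_roots hC]
  have huniq := (zero_notMem_erase_iff hC).mp h0
  obtain ⟨s, hs0, hs⟩ := exists_sign hcol hrow hle h2 h3
  have hrowR : ∀ i, ∑ j, ((Xz D i j : ℤ) : ℝ) = 7 := by
    intro i
    have := Xz_row hcol hrow i
    exact_mod_cast this
  refine lower_bound hC (by simp) (Cr_eq D) ?_ ?_ ?_ ?_ huniq ?_ ?_
  · have := Xr_trace_pow D 1
    rw [pow_one, pow_one] at this
    rw [this]
    have h : (Xz D).trace = 0 := by
      rw [Matrix.trace]
      apply Finset.sum_eq_zero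
      intro i _
      rw [diag_apply]
      exact Xz_diag hrow hle i
    rw [h]; simp
  · rw [Xr_trace_pow]
    have h : (Xz D ^ 2).trace = 126 := by
      apply le_antisymm h2
      rw [trace_sq]
      have hs : ∑ i, ∑ j, Xz D i j = 126 := by
        simp only [Xz_row hcol hrow]
        simp
      rw [← hs]
      apply Finset.sum_le_sum
      intro i _
      apply Finset.sum_le_sum
      intro j _
      rw [Xz_symm j i]
      rcases Xz_01 hcol hrow hle h2 i j with h | h <;> rw [h] <;> norm_num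
    rw [h]; norm_num
  · rw [Xr_trace_pow]
    have h : (Xz D ^ 3).trace = 0 := by
      rw [trace_cube]
      apply Finset.sum_eq_zero
      intro i _
      apply Finset.sum_eq_zero
      intro j _
      rw [Finset.sum_mul]
      apply Finset.sum_eq_zero
      intro k _
      exact Xz_tri hrow hle h3 i j k
    rw [h]; simp
  · -- positive semidefinite
    have hps : (Cr D).PosSemidef := by
      rw [posSemidef_iff_dotProduct_mulVec]
      refine ⟨hC, ?_⟩
      intro x
      have key : star x ⬝ᵥ (Cr D *ᵥ x)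
          = (1 / 4 : ℝ) * ∑ i, ∑ j, ((Xz D i j : ℤ) : ℝ) * (x i - x j) ^ 2 := by
        rw [Cr_eq]
        have e1 : ∀ i j, ((Xz D i j : ℤ) : ℝ) * (x i - x j) ^ 2
            = ((Xz D i j : ℤ) : ℝ) * (x i) ^ 2 + ((Xz D i j : ℤ) : ℝ) * (x j) ^ 2
              - 2 * (((Xz D i j : ℤ) : ℝ) * x i * x j) := by
          intro i j; ring
        simp only [e1, Finset.sum_sub_distrib, Finset.sum_add_distrib]
        have e2 : ∑ i, ∑ j, ((Xz D i j : ℤ) : ℝ) * (x i) ^ 2 = 7 * ∑ i, (x i) ^ 2 := by
          rw [Finset.mul_sum]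
          apply Finset.sum_congr rfl
          intro i _
          rw [← Finset.sum_mul, hrowR]
        have e3 : ∑ i, ∑ j, ((Xz D i j : ℤ) : ℝ) * (x j) ^ 2 = 7 * ∑ i, (x i) ^ 2 := by
          rw [Finset.sum_comm, ← e2]
          apply Finset.sum_congr rfl
          intro i _
          apply Finset.sum_congr rfl
          intro j _
          rw [Xz_symm]
        rw [e2, e3]
        have e4 : star x ⬝ᵥ (((1 / 2 : ℝ) • ((7 : ℝ) • (1 : Matrix (Fin 18) (Fin 18) ℝ) - Xr D))
            *ᵥ x) = (7 / 2) * ∑ i, (x i) ^ 2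
              - (1 / 2) * ∑ i, ∑ j, ((Xz D i j : ℤ) : ℝ) * x i * x j := by
          rw [smul_mulVec, sub_mulVec, smul_mulVec, one_mulVec]
          simp only [dotProduct, Pi.star_apply, star_trivial, Pi.smul_apply, Pi.sub_apply,
            smul_eq_mul, mulVec, Xr_apply]
          rw [Finset.mul_sum, Finset.mul_sum, ← Finset.sum_sub_distrib]
          apply Finset.sum_congr rfl
          intro i _
          have : ∑ j, ((Xz D i j : ℤ) : ℝ) * x i * x j
              = x i * ∑ j, ((Xz D i j : ℤ) : ℝ) * x j := by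
            rw [Finset.mul_sum]
            apply Finset.sum_congr rfl
            intro j _
            ring
          rw [this]
          ring
        rw [e4]
        have e5 : ∑ i, ∑ j, 2 * (((Xz D i j : ℤ) : ℝ) * x i * x j)
            = 2 * ∑ i, ∑ j, ((Xz D i j : ℤ) : ℝ) * x i * x j := by
          simp only [Finset.mul_sum]
        rw [e5]
        ring
      rw [key]
      apply mul_nonneg (by norm_num)
      apply Finset.sum_nonneg
      intro i _
      apply Finset.sum_nonneg
      intro j _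
      apply mul_nonneg _ (sq_nonneg _)
      exact_mod_cast Xz_nonneg hrow hle i j
    intro i
    exact hps.eigenvalues_nonneg i
  · -- eigenvalue 0
    apply exists_eigenvalue hC (v := fun _ => 1)
    · intro h
      have := congrFun h 0
      norm_num at this
    · rw [Cr_eq, zero_smul]
      ext i
      simp only [mulVec, dotProduct, Matrix.smul_apply, Matrix.sub_apply, one_apply, Xr_apply, smul_eq_mul,
        mul_one, Pi.zero_apply]
      rw [← Finset.mul_sum, Finset.sum_sub_distrib, hrowR]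
      simp
  · -- eigenvalue 7
    apply exists_eigenvalue hC (v := fun i => (s i : ℝ))
    · intro h
      have := congrFun h 0
      simp only [Pi.zero_apply, Int.cast_eq_zero] at this
      exact hs0 0 this
    · rw [Cr_eq]
      ext i
      have h1 : ∑ j, ((Xz D i j : ℤ) : ℝ) * (s j : ℝ) = -7 * (s i : ℝ) := by
        exact_mod_cast hs i
      rw [smul_mulVec, sub_mulVec, smul_mulVec, one_mulVec]
      simp only [mulVec, dotProduct, Xr_apply, smul_eq_mul, Pi.smul_apply, Pi.sub_apply]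
      rw [h1]
      ring

end Pool.Agent.Lib.MP_d6bcd1_co
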