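import Mathlib
import Pool.Agent.Lib.MP_d6bcd1_co.Spec
import Pool.Agent.Lib.MP_d6bcd1_co.Design
import Pool.Agent.Lib.MP_d6bcd1_co.Data

/-! The two explicit designs. -/

namespace Pool.Agent.Lib.MP_d6bcd1_co

open Matrix Finset

/-- The first design as a matrix. -/
def W1 : Matrix (Fin 18) (Fin 63) ℕ := M1

/-- The second design as a matrix. -/
def W2 : Matrix (Fin 18) (Fin 63) ℕ := M2

theorem Xz_M1 (i j : Fin 18) : Xz W1 i j = X1 i j := by
  rw [Xz_apply]
  exact X1_eq i j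

theorem M1_conn :
    (SimpleGraph.fromRel (fun i j : Fin 18 => 0 < (W1 *
      Matrix.transpose W1) i j)).Connected := by
  rw [SimpleGraph.connected_iff_exists_forall_reachable]
  refine ⟨0, ?_⟩
  intro i
  have hadj : ∀ x y : Fin 18, x ≠ y → X1 x y = 1 →
      (SimpleGraph.fromRel (fun i j : Fin 18 => 0 < (W1 *
      Matrix.transpose W1) i j)).Adj x y := by
    intro x y hxy h1
    rw [SimpleGraph.fromRel_adj]
    refine ⟨hxy, Or.inl ?_⟩
    have h2 := X1_eq x y
    rw [if_neg hxy, sub_zero, h1] at h2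
    rw [mul_apply]
    show 0 < ∑ j, M1 x j * M1 y j
    have h3 : ((∑ j, M1 x j * M1 y j : ℕ) : ℤ) = 1 := by
      push_cast
      exact h2
    have h4 : (∑ j, M1 x j * M1 y j : ℕ) = 1 := by exact_mod_cast h3
    rw [h4]
    norm_num
  obtain ⟨j, k, h1, h2, h3⟩ := X1_path i
  have r1 : (SimpleGraph.fromRel (fun i j : Fin 18 => 0 < (W1 *
      Matrix.transpose W1) i j)).Reachable 0 j := by
    rcases h1 with h | ⟨h, h'⟩
    · rw [h]
    · exact (hadj _ _ h h').reachable
  have r2 : (SimpleGraph.fromRel (fun i j : Fin 18 => 0 < (W1 *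
      Matrix.transpose W1) i j)).Reachable j k := by
    rcases h2 with h | ⟨h, h'⟩
    · rw [h]
    · exact (hadj _ _ h h').reachable
  have r3 : (SimpleGraph.fromRel (fun i j : Fin 18 => 0 < (W1 *
      Matrix.transpose W1) i j)).Reachable k i := by
    rcases h3 with h | ⟨h, h'⟩
    · rw [h]
    · exact (hadj _ _ h h').reachable
  exact (r1.trans r2).trans r3

theorem M1_tr2 : (Xz W1 ^ 2).trace = 126 := by
  rw [trace_sq]
  simp only [Xz_M1]
  exact X1_tr2

theorem M1_tr3 : (Xz W1 ^ 3).trace = 0 := by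
  rw [trace_cube]
  simp only [Xz_M1]
  exact X1_tr3

theorem Cr_M2 : Cr W2 = (1 / 2 : ℝ) • (Matrix.of (fun i j => ((L2 i j : ℤ) : ℝ))) := by
  ext i j
  unfold Cr
  have h := L2_eq i j
  have h' : ((if i = j then (14 : ℝ) else 0) - ∑ b, ((M2 i b : ℕ) : ℝ) * ((M2 j b : ℕ) : ℝ))
      = ((L2 i j : ℤ) : ℝ) := by
    rw [← h]
    push_cast
    split_ifs <;> simp
  simp only [Matrix.sub_apply, Matrix.smul_apply, mul_apply, map_apply, transpose_apply,
    smul_eq_mul, of_apply, one_apply, W2]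
  rw [← h']
  split_ifs <;> ring

/-- The pseudo-inverse of the information matrix of the second design. -/
noncomputable def P2 : Matrix (Fin 18) (Fin 18) ℝ :=
  (1 / (9 * 1471008) : ℝ) • (Matrix.of (fun i j => ((Q2 i j : ℤ) : ℝ)))

noncomputable def E2 : Matrix (Fin 18) (Fin 18) ℝ := Matrix.of (fun _ _ => (1 / 18 : ℝ))

theorem M2_pinv :
    (((Cr W2).charpoly.roots.erase 0).map (fun x => x⁻¹)).sum = 64620180 / (9 * 1471008) ∧
      (0 : ℝ) ∉ (Cr W2).charpoly.roots.erase 0 := by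
  have hC := Cr_herm W2
  have hAP : Cr W2 * P2 = 1 - E2 := by
    ext i j
    rw [Cr_M2, P2, E2]
    simp only [Matrix.sub_apply, Matrix.smul_apply, mul_apply, smul_eq_mul, of_apply, one_apply]
    have h := L2_Q2 i j
    have h' : ∑ k, ((L2 i k : ℤ) : ℝ) * ((Q2 k j : ℤ) : ℝ)
        = 1471008 * (if i = j then 17 else -1) := by
      have : (((∑ k, L2 i k * Q2 k j : ℤ)) : ℝ) = ((1471008 * (if i = j then 17 else -1) : ℤ) : ℝ)
        := by rw [h]
      push_cast at this
      exact this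
    have h2 : ∑ k, 1 / 2 * ((L2 i k : ℤ) : ℝ) * (1 / (9 * 1471008) * ((Q2 k j : ℤ) : ℝ))
        = (1 / (18 * 1471008)) * ∑ k, ((L2 i k : ℤ) : ℝ) * ((Q2 k j : ℤ) : ℝ) := by
      rw [Finset.mul_sum]
      apply Finset.sum_congr rfl
      intro k _
      ring
    rw [h2, h']
    split_ifs <;> norm_num
  have hPA : P2 * Cr W2 = 1 - E2 := by
    ext i j
    rw [Cr_M2, P2, E2]
    simp only [Matrix.sub_apply, Matrix.smul_apply, mul_apply, smul_eq_mul, of_apply, one_apply]
    have h := Q2_L2 i j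
    have h' : ∑ k, ((Q2 i k : ℤ) : ℝ) * ((L2 k j : ℤ) : ℝ)
        = 1471008 * (if i = j then 17 else -1) := by
      have : (((∑ k, Q2 i k * L2 k j : ℤ)) : ℝ) = ((1471008 * (if i = j then 17 else -1) : ℤ) : ℝ)
        := by rw [h]
      push_cast at this
      exact this
    have h2 : ∑ k, 1 / (9 * 1471008) * ((Q2 i k : ℤ) : ℝ) * (1 / 2 * ((L2 k j : ℤ) : ℝ))
        = (1 / (18 * 1471008)) * ∑ k, ((Q2 i k : ℤ) : ℝ) * ((L2 k j : ℤ) : ℝ) := by
      rw [Finset.mul_sum]
      apply Finset.sum_congr rfl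
      intro k _
      ring
    rw [h2, h']
    split_ifs <;> norm_num
  have hPE : P2 * E2 = 0 := by
    ext i j
    rw [P2, E2]
    simp only [Matrix.smul_apply, mul_apply, smul_eq_mul, of_apply, Matrix.zero_apply]
    have h := Q2_row i
    have h' : ∑ k, ((Q2 i k : ℤ) : ℝ) = 0 := by exact_mod_cast h
    rw [← Finset.sum_mul, ← Finset.mul_sum, h']
    simp
  have hEA : E2 * Cr W2 = 0 := by
    ext i j
    rw [Cr_M2, E2]
    simp only [Matrix.smul_apply, mul_apply, smul_eq_mul, of_apply, Matrix.zero_apply]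
    have h := L2_row j
    have h' : ∑ k, ((L2 k j : ℤ) : ℝ) = 0 := by
      have : ∑ k, L2 k j = 0 := by
        rw [← h]
        exact Finset.sum_congr rfl (fun k _ => L2_symm k j)
      exact_mod_cast this
    rw [← Finset.mul_sum, ← Finset.mul_sum, h']
    simp
  have hE : E2.trace = 1 := by
    rw [E2, Matrix.trace]
    simp
  obtain ⟨h1, h2⟩ := of_pinv hC hAP hPA hPE hEA hE
  refine ⟨?_, (zero_notMem_erase_iff hC).mpr h2⟩
  rw [sum_inv_roots hC, h1, P2, Matrix.trace_smul, Matrix.trace]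
  simp only [diag_apply, of_apply]
  have h : (∑ x, ((Q2 x x : ℤ) : ℝ)) = 64620180 := by exact_mod_cast Q2_tr
  rw [h, smul_eq_mul]
  norm_num

end Pool.Agent.Lib.MP_d6bcd1_co
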